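import Pool.Agent.N65.GP.Defs

/-!
# Project GP (helper65), B1: the roots of the polynomial `F(c, y)` for large `c` (helper344)
-/

set_option autoImplicit false

namespace Pool.Agent.N344.GP.B1

open Complex Polynomial Filter Topology
open Pool.Agent.N65.GP

/-- the equation near infinity -/
noncomputable def PP (n : ℕ) (α : Fin n → ℂ) (a : ℕ → ℕ → ℂ) (v : ℂ × ℂ) : ℂ :=
  ∏ i, (v.2 - α i) + ∑ i ∈ Finset.range n, ∑ j ∈ Finset.range (n - i),
    a i j * v.1 ^ (n - i - j) * v.2 ^ j

variable {n : ℕ} {α : Fin n → ℂ} {a : ℕ → ℕ → ℂ}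

lemma PP_contDiff : ContDiff ℂ 1 (PP n α a) := by
  unfold PP
  apply ContDiff.add
  · apply contDiff_prod
    intro i _
    fun_prop
  · apply ContDiff.sum
    intro i _
    apply ContDiff.sum
    intro j _
    fun_prop

lemma PP_zero (w : ℂ) : PP n α a (0, w) = ∏ i, (w - α i) := by
  unfold PP
  have h : ∑ i ∈ Finset.range n, ∑ j ∈ Finset.range (n - i),
      a i j * (0 : ℂ) ^ (n - i - j) * w ^ j = 0 := by
    apply Finset.sum_eq_zero
    intro i hi
    apply Finset.sum_eq_zero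
    intro j hj
    rw [Finset.mem_range] at hi hj
    rw [zero_pow (by omega), mul_zero, zero_mul]
  simp only
  rw [h, add_zero]

lemma Fp_eq {c : ℂ} (hc : c ≠ 0) (w : ℂ) :
    Fp n α a c (c * w) = c ^ n * PP n α a (c⁻¹, w) := by
  unfold Fp PP
  rw [mul_add, Finset.mul_sum]
  congr 1
  · have h1 : ∀ i, c * w - α i * c = c * (w - α i) := fun i => by ring
    simp only [h1]
    rw [Finset.prod_mul_distrib, Finset.prod_const, Finset.card_univ, Fintype.card_fin]
  · refine Finset.sum_congr rfl fun i hi => ?_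
    rw [Finset.mul_sum]
    refine Finset.sum_congr rfl fun j hj => ?_
    rw [Finset.mem_range] at hi hj
    have h2 : c ^ n = c ^ i * c ^ j * c ^ (n - i - j) := by
      rw [← pow_add, ← pow_add]
      congr 1
      omega
    simp only
    rw [h2, mul_pow, inv_pow]
    have h3 : c ^ (n - i - j) ≠ 0 := pow_ne_zero _ hc
    field_simp

/-- the derivative of a product at a simple root -/
lemma prod_deriv (β : Fin n → ℂ) (i : Fin n) :
    HasDerivAt (fun w => ∏ j, (w - β j)) (∏ j ∈ Finset.univ.erase i, (β i - β j)) (β i) := by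
  have h1 : (fun w : ℂ => ∏ j, (w - β j)) =
      fun w => (w - β i) * ∏ j ∈ Finset.univ.erase i, (w - β j) := by
    funext w
    exact (Finset.mul_prod_erase Finset.univ (fun j => w - β j) (Finset.mem_univ i)).symm
  have h2 : DifferentiableAt ℂ (fun w : ℂ => ∏ j ∈ Finset.univ.erase i, (w - β j)) (β i) := by
    fun_prop
  have h3 := ((hasDerivAt_id (β i)).sub_const (β i)).mul h2.hasDerivAt
  rw [h1]
  simp only [id, sub_self, zero_mul, add_zero, one_mul] at h3
  exact h3

lemma prod_ne {β : Fin n → ℂ} (hβ : Function.Injective β) (i : Fin n) :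
    ∏ j ∈ Finset.univ.erase i, (β i - β j) ≠ 0 := by
  rw [Finset.prod_ne_zero_iff]
  intro j hj
  rw [sub_ne_zero]
  intro h
  exact (Finset.ne_of_mem_erase hj) (hβ h).symm

lemma isInv (hα : Function.Injective α) (i : Fin n) :
    ((fderiv ℂ (PP n α a) (0, α i)) ∘L (.inr ℂ ℂ ℂ)).IsInvertible := by
  obtain ⟨A, hA⟩ : ∃ A : ℂ →L[ℂ] ℂ, A = (fderiv ℂ (PP n α a) (0, α i)) ∘L (.inr ℂ ℂ ℂ) := ⟨_, rfl⟩
  rw [← hA]
  have h1 : HasDerivAt (fun w : ℂ => PP n α a (0, w)) (A 1) (α i) := by
    have h2 : HasFDerivAt (PP n α a) (fderiv ℂ (PP n α a) (0, α i)) (0, α i) :=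
      ((PP_contDiff.differentiable one_ne_zero) (0, α i)).hasFDerivAt
    have h3 : HasDerivAt (fun w : ℂ => ((0 : ℂ), w)) ((0 : ℂ), (1 : ℂ)) (α i) :=
      (hasDerivAt_const (α i) (0 : ℂ)).prodMk (hasDerivAt_id (α i))
    have h4 := HasFDerivAt.comp_hasDerivAt (α i) h2 h3
    rw [hA]
    exact h4
  have h2 : (fun w : ℂ => PP n α a (0, w)) = fun w => ∏ j, (w - α j) := by
    funext w
    exact PP_zero w
  rw [h2] at h1
  have h3 : A 1 ≠ 0 := by
    rw [h1.unique (prod_deriv α i)]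
    exact prod_ne hα i
  refine ⟨ContinuousLinearEquiv.unitsEquivAut ℂ (Units.mk0 (A 1) h3), ?_⟩
  ext
  simp

/-- the factorisation of `F(c, y)` when `n` different roots are known -/
lemma factor (c : ℂ) {β : Fin n → ℂ} (hβ : Function.Injective β)
    (h0 : ∀ i, Fp n α a c (β i) = 0) (y : ℂ) : Fp n α a c y = ∏ i, (y - β i) := by
  obtain ⟨Q, hQ⟩ : ∃ Q : ℂ[X], Q = ∏ i, (X - C (α i * c)) +
    ∑ i ∈ Finset.range n, ∑ j ∈ Finset.range (n - i), C (a i j * c ^ i) * X ^ j := ⟨_, rfl⟩
  have hev : ∀ y, eval y Q = Fp n α a c y := by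
    intro y
    rw [hQ]
    unfold Fp
    simp only [eval_add, eval_prod, eval_finsetSum, eval_sub, eval_X, eval_C, eval_mul, eval_pow]
  have hdp : ∀ γ : Fin n → ℂ, (∏ i, (X - C (γ i)) : ℂ[X]).degree = n := by
    intro γ
    rw [degree_prod]
    simp
  have hmo : ∀ γ : Fin n → ℂ, (∏ i, (X - C (γ i)) : ℂ[X]).Monic := fun γ =>
    monic_prod_of_monic _ _ fun i _ => monic_X_sub_C _
  have hdeg : (Q - ∏ i, (X - C (β i))).degree < (Finset.univ : Finset (Fin n)).card := by
    rw [Finset.card_univ, Fintype.card_fin]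
    rw [← mem_degreeLT, hQ, add_sub_right_comm]
    apply Submodule.add_mem
    · rw [mem_degreeLT, ← hdp (fun i => α i * c)]
      apply degree_sub_lt_left
      · rw [hdp, hdp]
      · exact (hmo _).ne_zero
      · rw [(hmo _).leadingCoeff, (hmo _).leadingCoeff]
    · apply Submodule.sum_mem
      intro i hi
      apply Submodule.sum_mem
      intro j hj
      rw [mem_degreeLT]
      refine (degree_C_mul_X_pow_le _ _).trans_lt ?_
      rw [Finset.mem_range] at hi hj
      exact_mod_cast (by omega : j < n)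
  have hEq : Q = ∏ i, (X - C (β i)) := by
    refine Polynomial.eq_of_degree_sub_lt_of_eval_index_eq (v := β) Finset.univ
      (hβ.injOn) hdeg ?_
    intro i _
    rw [hev, h0, eval_prod]
    symm
    apply Finset.prod_eq_zero (Finset.mem_univ i)
    simp
  rw [← hev, hEq, eval_prod]
  simp

theorem t_B1 : S_B1 := by
  intro n α a hα
  -- the implicit functions
  have hcd : ∀ i, ContDiffAt ℂ 1 (PP n α a) (0, α i) := fun i => PP_contDiff.contDiffAt
  obtain ⟨w, hw⟩ : ∃ w : Fin n → ℂ → ℂ, ∀ i, w i = (hcd i).implicitFunction one_ne_zero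
    (isInv hα i) := ⟨_, fun i => rfl⟩
  have hw0 : ∀ i, w i 0 = α i := by
    intro i
    rw [hw]
    exact (hcd i).implicitFunction_apply_self one_ne_zero (isInv hα i)
  have hwP : ∀ i, ∀ᶠ z in 𝓝 (0 : ℂ), PP n α a (z, w i z) = 0 := by
    intro i
    have h1 := (hcd i).eventually_apply_implicitFunction one_ne_zero (isInv hα i)
    rw [← hw] at h1
    have h2 : PP n α a (0, α i) = 0 := by
      rw [PP_zero]
      exact Finset.prod_eq_zero (Finset.mem_univ i) (sub_self _)
    rw [h2] at h1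
    exact h1
  have hwc : ∀ i, ContDiffAt ℂ 1 (w i) 0 := by
    intro i
    rw [hw]
    exact (hcd i).contDiffAt_implicitFunction one_ne_zero (isInv hα i)
  have hwd : ∀ i, ∀ᶠ z in 𝓝 (0 : ℂ), DifferentiableAt ℂ (w i) z := by
    intro i
    filter_upwards [(hwc i).eventually (by simp)] with z hz
    exact hz.differentiableAt one_ne_zero
  have hwne : ∀ i j, i ≠ j → ∀ᶠ z in 𝓝 (0 : ℂ), w i z ≠ w j z := by
    intro i j hij
    have h1 : Tendsto (w i) (𝓝 0) (𝓝 (α i)) := by
      rw [← hw0 i]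
      exact (hwc i).continuousAt
    have h2 : Tendsto (w j) (𝓝 0) (𝓝 (α j)) := by
      rw [← hw0 j]
      exact (hwc j).continuousAt
    have h3 := (h1.sub h2).eventually_ne (sub_ne_zero.2 (fun h => hij (hα h)))
    filter_upwards [h3] with z hz
    exact sub_ne_zero.1 hz
  have hall : ∀ᶠ z in 𝓝 (0 : ℂ), (∀ i, PP n α a (z, w i z) = 0) ∧
      (∀ i, DifferentiableAt ℂ (w i) z) ∧ ∀ i j, i ≠ j → w i z ≠ w j z := by
    refine (eventually_all.2 hwP).and ((eventually_all.2 hwd).and ?_)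
    rw [eventually_all]
    intro i
    rw [eventually_all]
    intro j
    by_cases hij : i = j
    · exact Eventually.of_forall fun z h => absurd hij h
    · filter_upwards [hwne i j hij] with z hz _
      exact hz
  obtain ⟨r, hr, hball⟩ := Metric.eventually_nhds_iff.1 hall
  have hsm : ∀ c : ℂ, 1 / r < ‖c‖ → c ≠ 0 ∧ dist c⁻¹ 0 < r := by
    intro c hc
    have h1 : 0 < ‖c‖ := lt_trans (by positivity) hc
    refine ⟨norm_pos_iff.1 h1, ?_⟩
    rw [dist_zero_right, norm_inv]
    rw [div_lt_iff₀ hr] at hc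
    rw [inv_lt_iff_one_lt_mul₀ h1, mul_comm]
    exact hc
  have hinj : ∀ c : ℂ, 1 / r < ‖c‖ → Function.Injective fun i => c * w i c⁻¹ := by
    intro c hc i j hij
    obtain ⟨hc0, hc1⟩ := hsm c hc
    by_contra h
    exact (hball hc1).2.2 i j h (mul_left_cancel₀ hc0 hij)
  have hfac : ∀ c : ℂ, 1 / r < ‖c‖ → ∀ y, Fp n α a c y = ∏ i, (y - c * w i c⁻¹) := by
    intro c hc y
    obtain ⟨hc0, hc1⟩ := hsm c hc
    refine factor c (hinj c hc) (fun i => ?_) y
    rw [Fp_eq hc0, (hball hc1).1 i, mul_zero]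
  refine ⟨1 / r, fun i c => c * w i c⁻¹, by positivity, ?_, hinj, ?_, ?_, ?_⟩
  · intro c hc y
    rw [hfac c hc, Finset.prod_eq_zero_iff]
    constructor
    · rintro ⟨i, _, hi⟩
      exact ⟨i, sub_eq_zero.1 hi⟩
    · rintro ⟨i, hi⟩
      exact ⟨i, Finset.mem_univ i, sub_eq_zero.2 hi⟩
  · intro i c hc
    obtain ⟨hc0, hc1⟩ := hsm c hc
    apply DifferentiableAt.differentiableWithinAt
    have h1 : DifferentiableAt ℂ (fun c : ℂ => w i c⁻¹) c :=
      DifferentiableAt.comp (g := w i) (f := fun c : ℂ => c⁻¹) c ((hball hc1).2.1 i)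
        (differentiableAt_inv hc0)
    exact differentiableAt_id.mul h1
  · intro i c hc
    have h1 : (fun t => Fp n α a c t) = fun t => ∏ j, (t - (fun j => c * w j c⁻¹) j) := by
      funext t
      exact hfac c hc t
    rw [h1, (prod_deriv (fun j => c * w j c⁻¹) i).deriv]
    exact prod_ne (hinj c hc) i
  · intro i
    have h1 : Tendsto (fun c : ℂ => w i c⁻¹) (Bornology.cobounded ℂ) (𝓝 (w i 0)) :=
      ((hwc i).continuousAt.tendsto).comp tendsto_inv₀_cobounded
    rw [hw0] at h1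
    refine h1.congr' ?_
    filter_upwards [tendsto_norm_cobounded_atTop.eventually (eventually_gt_atTop (0 : ℝ))] with c hc
    rw [mul_div_cancel_left₀ _ (norm_pos_iff.1 hc)]

end Pool.Agent.N344.GP.B1
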